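import Pool.Agent.K44.Defs

/-!
# K_{4,t}-free graphs of bilinear type: the counting core

`h y : X →+ Z` are homomorphisms, indexed by `y : Y`, such that `h y a` is equidistributed in `Z` for every
`a ≠ 0`.  Points are pairs `(x, z)`, flats are pairs `(y, w)`, incident if `h y x = z + w`.
-/

set_option autoImplicit false
set_option linter.unusedSectionVars false

open Finset

namespace Pool.Agent.K44

variable {X Y Z : Type} [AddCommGroup X] [AddCommGroup Z] [Fintype X] [Fintype Y] [Fintype Z]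

open Classical in
/-- indicator as a real number -/
noncomputable def ind (P : Prop) : ℝ := if P then 1 else 0

lemma ind_nonneg (P : Prop) : 0 ≤ ind P := by unfold ind; split_ifs <;> norm_num
lemma ind_le_one (P : Prop) : ind P ≤ 1 := by unfold ind; split_ifs <;> norm_num
lemma ind_sq (P : Prop) : ind P ^ 2 = ind P := by unfold ind; split_ifs <;> norm_num
lemma ind_mul (P Q : Prop) : ind P * ind Q = ind (P ∧ Q) := by
  unfold ind; by_cases hP : P <;> by_cases hQ : Q <;> simp [hP, hQ]
lemma ind_true {P : Prop} (h : P) : ind P = 1 := by simp [ind, h]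
lemma ind_false {P : Prop} (h : ¬ P) : ind P = 0 := by simp [ind, h]
lemma ind_mono {P Q : Prop} (h : P → Q) : ind P ≤ ind Q := by
  by_cases hP : P
  · rw [ind_true hP, ind_true (h hP)]
  · rw [ind_false hP]; exact ind_nonneg Q

lemma sum_ind_eq {α : Type} [Fintype α] (c : α) : ∑ x : α, ind (x = c) = 1 := by
  classical
  rw [Finset.sum_eq_single c]
  · exact ind_true rfl
  · intro b _ hb; exact ind_false hb
  · intro h; exact absurd (mem_univ c) h

lemma sum_ind_eq' {α : Type} [Fintype α] (c : α) : ∑ x : α, ind (c = x) = 1 := by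
  rw [← sum_ind_eq c]; exact Finset.sum_congr rfl fun x _ => congrArg ind (propext eq_comm)

lemma sum_ind_card {α : Type} [Fintype α] (P : α → Prop) :
    ∑ x : α, ind (P x) = (Nat.card {x : α // P x} : ℝ) := by
  classical
  unfold ind
  rw [Finset.sum_ite, Finset.sum_const_zero, add_zero, Finset.sum_const, nsmul_eq_mul, mul_one,
    Nat.card_eq_fintype_card, Fintype.card_subtype]

/-- equidistribution, in the form used -/
lemma equi_sum {h : Y → X →+ Z} (he : Equidist h) (a : X) (ha : a ≠ 0) (z : Z) :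
    (Fintype.card Z : ℝ) * ∑ y : Y, ind (h y a = z) = (Fintype.card Y : ℝ) := by
  rw [sum_ind_card]
  have := he a ha z
  rw [Nat.card_eq_fintype_card (α := Z), Nat.card_eq_fintype_card (α := Y)] at this
  exact_mod_cast this

section Sums

variable (h : Y → X →+ Z) (A : X × Z → Prop) (B : Y × Z → Prop)

/-- the size of `A` -/
noncomputable def sz {α : Type} [Fintype α] (A : α → Prop) : ℝ := ∑ p : α, ind (A p)

lemma sz_nonneg {α : Type} [Fintype α] (A : α → Prop) : 0 ≤ sz A :=
  Finset.sum_nonneg fun _ _ => ind_nonneg _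

/-- the number of points of `A` on the flat `(y, c)` -/
noncomputable def Nn (y : Y) (c : Z) : ℝ := ∑ p : X × Z, ind (A p) * ind (h y p.1 - p.2 = c)

/-- the deviation -/
noncomputable def Dev (y : Y) : ℝ := ∑ c : Z, (Nn h A y c - sz A / Fintype.card Z) ^ 2

lemma Dev_nonneg (y : Y) : 0 ≤ Dev h A y := Finset.sum_nonneg fun _ _ => sq_nonneg _

lemma sum_Nn (y : Y) : ∑ c : Z, Nn h A y c = sz A := by
  unfold Nn sz
  rw [Finset.sum_comm]
  refine Finset.sum_congr rfl fun p _ => ?_
  rw [← Finset.mul_sum, sum_ind_eq', mul_one]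

lemma Dev_eq (y : Y) : Dev h A y = ∑ c : Z, Nn h A y c ^ 2 - sz A ^ 2 / Fintype.card Z := by
  have hm : (0 : ℝ) < Fintype.card Z := by exact_mod_cast Fintype.card_pos
  unfold Dev
  have : ∀ c : Z, (Nn h A y c - sz A / Fintype.card Z) ^ 2
      = Nn h A y c ^ 2 - 2 * (sz A / Fintype.card Z) * Nn h A y c + (sz A / Fintype.card Z) ^ 2 := by
    intro c; ring
  rw [Finset.sum_congr rfl fun c _ => this c, Finset.sum_add_distrib, Finset.sum_sub_distrib,
    ← Finset.mul_sum, sum_Nn, Finset.sum_const, nsmul_eq_mul, Finset.card_univ]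
  field_simp
  ring

lemma sum_Nn_sq (y : Y) : ∑ c : Z, Nn h A y c ^ 2
    = ∑ p : X × Z, ∑ p' : X × Z, ind (A p) * ind (A p') * ind (h y p.1 - p.2 = h y p'.1 - p'.2) := by
  have h1 : ∀ c : Z, Nn h A y c ^ 2 = ∑ p : X × Z, ∑ p' : X × Z,
      (ind (A p) * ind (A p')) * (ind (h y p.1 - p.2 = c) * ind (h y p'.1 - p'.2 = c)) := by
    intro c
    unfold Nn
    rw [sq, Finset.sum_mul_sum]
    refine Finset.sum_congr rfl fun p _ => Finset.sum_congr rfl fun p' _ => by ring
  rw [Finset.sum_congr rfl fun c _ => h1 c, Finset.sum_comm]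
  refine Finset.sum_congr rfl fun p _ => ?_
  rw [Finset.sum_comm]
  refine Finset.sum_congr rfl fun p' _ => ?_
  rw [← Finset.mul_sum]
  congr 1
  have h2 : ∀ c : Z, ind (h y p.1 - p.2 = c) * ind (h y p'.1 - p'.2 = c)
      = ind (h y p.1 - p.2 = h y p'.1 - p'.2) * ind (h y p.1 - p.2 = c) := by
    intro c
    rw [ind_mul, ind_mul]
    unfold ind
    congr 1
    apply propext
    constructor
    · rintro ⟨u, v⟩; exact ⟨u.trans v.symm, u⟩
    · rintro ⟨u, v⟩; exact ⟨v, u.symm.trans v⟩
  rw [Finset.sum_congr rfl fun c _ => h2 c, ← Finset.mul_sum, sum_ind_eq', mul_one]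

/-- the second moment -/
lemma sum_Dev (he : Equidist h) : ∑ y : Y, Dev h A y ≤ sz A * Fintype.card Y := by
  have hm : (0 : ℝ) < Fintype.card Z := by exact_mod_cast Fintype.card_pos
  have key : ∀ p p' : X × Z, ∑ y : Y, ind (h y p.1 - p.2 = h y p'.1 - p'.2)
      ≤ (Fintype.card Y : ℝ) / Fintype.card Z + ind (p = p') * Fintype.card Y := by
    intro p p'
    have hY : (0 : ℝ) ≤ Fintype.card Y := by positivity
    by_cases hp : p = p'
    · rw [ind_true hp, one_mul]
      have : ∑ y : Y, ind (h y p.1 - p.2 = h y p'.1 - p'.2) ≤ ∑ _y : Y, (1 : ℝ) :=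
        Finset.sum_le_sum fun y _ => ind_le_one _
      rw [Finset.sum_const, nsmul_eq_mul, mul_one, Finset.card_univ] at this
      have h3 : (0 : ℝ) ≤ (Fintype.card Y : ℝ) / Fintype.card Z := by positivity
      linarith
    · rw [ind_false hp, zero_mul, add_zero]
      by_cases hx : p.1 = p'.1
      · have hz : p.2 ≠ p'.2 := fun hz => hp (Prod.ext hx hz)
        have : ∀ y : Y, ind (h y p.1 - p.2 = h y p'.1 - p'.2) = 0 := by
          intro y
          apply ind_false
          rw [hx]
          intro hh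
          exact hz (sub_right_injective hh)
        rw [Finset.sum_congr rfl fun y _ => this y, Finset.sum_const_zero]
        positivity
      · have hne : p.1 - p'.1 ≠ 0 := sub_ne_zero.mpr hx
        have h4 := equi_sum he (p.1 - p'.1) hne (p.2 - p'.2)
        have h5 : ∀ y : Y, ind (h y p.1 - p.2 = h y p'.1 - p'.2)
            = ind (h y (p.1 - p'.1) = p.2 - p'.2) := by
          intro y
          unfold ind
          congr 1
          apply propext
          rw [map_sub, sub_eq_sub_iff_sub_eq_sub]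
        rw [Finset.sum_congr rfl fun y _ => h5 y, le_div_iff₀ hm, mul_comm]
        exact h4.le
  have e1 : ∑ y : Y, ∑ c : Z, Nn h A y c ^ 2
      = ∑ p : X × Z, ∑ p' : X × Z, ind (A p) * ind (A p') *
          ∑ y : Y, ind (h y p.1 - p.2 = h y p'.1 - p'.2) := by
    rw [Finset.sum_congr rfl fun y _ => sum_Nn_sq h A y, Finset.sum_comm]
    refine Finset.sum_congr rfl fun p _ => ?_
    rw [Finset.sum_comm]
    refine Finset.sum_congr rfl fun p' _ => ?_
    rw [Finset.mul_sum]
  have e2 : ∑ y : Y, ∑ c : Z, Nn h A y c ^ 2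
      ≤ ∑ p : X × Z, ∑ p' : X × Z, (ind (A p) * ind (A p') * ((Fintype.card Y : ℝ) / Fintype.card Z)
          + ind (A p) * (ind (p = p') * Fintype.card Y)) := by
    rw [e1]
    refine Finset.sum_le_sum fun p _ => Finset.sum_le_sum fun p' _ => ?_
    have h6 := mul_le_mul_of_nonneg_left (key p p') (mul_nonneg (ind_nonneg (A p)) (ind_nonneg (A p')))
    have h7 : ind (A p) * ind (A p') * (ind (p = p') * (Fintype.card Y : ℝ))
        ≤ ind (A p) * (ind (p = p') * Fintype.card Y) := by
      have := mul_le_mul_of_nonneg_right (mul_le_of_le_one_right (ind_nonneg (A p)) (ind_le_one (A p')))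
        (mul_nonneg (ind_nonneg (p = p')) (Nat.cast_nonneg (α := ℝ) (Fintype.card Y)))
      exact this
    calc _ ≤ _ := h6
      _ = ind (A p) * ind (A p') * ((Fintype.card Y : ℝ) / Fintype.card Z)
          + ind (A p) * ind (A p') * (ind (p = p') * (Fintype.card Y : ℝ)) := by ring
      _ ≤ _ := by linarith
  have e3 : ∑ p : X × Z, ∑ p' : X × Z, (ind (A p) * ind (A p') * ((Fintype.card Y : ℝ) / Fintype.card Z)
          + ind (A p) * (ind (p = p') * Fintype.card Y))
      = sz A ^ 2 * ((Fintype.card Y : ℝ) / Fintype.card Z) + sz A * Fintype.card Y := by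
    rw [Finset.sum_congr rfl fun p _ => Finset.sum_add_distrib, Finset.sum_add_distrib]
    congr 1
    · unfold sz
      rw [sq, Finset.sum_mul_sum, Finset.sum_mul]
      refine Finset.sum_congr rfl fun p _ => ?_
      rw [Finset.sum_mul]
    · unfold sz
      rw [Finset.sum_mul]
      refine Finset.sum_congr rfl fun p _ => ?_
      rw [← Finset.mul_sum, ← Finset.sum_mul, sum_ind_eq', one_mul]
  have e4 : ∑ y : Y, Dev h A y = ∑ y : Y, ∑ c : Z, Nn h A y c ^ 2
      - sz A ^ 2 * ((Fintype.card Y : ℝ) / Fintype.card Z) := by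
    rw [Finset.sum_congr rfl fun y _ => Dev_eq h A y, Finset.sum_sub_distrib, Finset.sum_const,
      nsmul_eq_mul, Finset.card_univ]
    congr 1
    ring
  rw [e4]
  linarith [e2, e3.le]

/-- the number of incidences between `A` and `B` -/
noncomputable def II : ℝ := ∑ q : Y × Z, ind (B q) * Nn h A q.1 q.2

/-- mixing -/
lemma mixing (he : Equidist h) :
    (II h A B - sz A * sz B / Fintype.card Z) ^ 2 ≤ sz B * (sz A * Fintype.card Y) := by
  have h1 : II h A B - sz A * sz B / Fintype.card Z
      = ∑ q : Y × Z, ind (B q) * (Nn h A q.1 q.2 - sz A / Fintype.card Z) := by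
    unfold II
    rw [Finset.sum_congr rfl fun (q : Y × Z) _ => mul_sub (ind (B q)) (Nn h A q.1 q.2)
      (sz A / Fintype.card Z), Finset.sum_sub_distrib, ← Finset.sum_mul]
    congr 1
    unfold sz
    ring
  rw [h1]
  calc (∑ q : Y × Z, ind (B q) * (Nn h A q.1 q.2 - sz A / Fintype.card Z)) ^ 2
      ≤ (∑ q : Y × Z, ind (B q) ^ 2) * ∑ q : Y × Z, (Nn h A q.1 q.2 - sz A / Fintype.card Z) ^ 2 :=
        Finset.sum_mul_sq_le_sq_mul_sq _ _ _
    _ = sz B * ∑ y : Y, Dev h A y := by
        congr 1
        · unfold sz; exact Finset.sum_congr rfl fun q _ => ind_sq _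
        · rw [Fintype.sum_prod_type]; rfl
    _ ≤ sz B * (sz A * Fintype.card Y) :=
        mul_le_mul_of_nonneg_left (sum_Dev h A he) (sz_nonneg B)

/-- the number of triples (two points of `A`, a flat of `B`) with the two points on parallel flats of the same
value -/
noncomputable def TT : ℝ := ∑ q : Y × Z, ind (B q) * ∑ c : Z, Nn h A q.1 c ^ 2

lemma TT_le (he : Equidist h) :
    TT h A B ≤ sz A ^ 2 * sz B / Fintype.card Z + Fintype.card Z * (sz A * Fintype.card Y) := by
  have hm : (0 : ℝ) < Fintype.card Z := by exact_mod_cast Fintype.card_pos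
  have h1 : ∀ q : Y × Z, ind (B q) * ∑ c : Z, Nn h A q.1 c ^ 2
      ≤ ind (B q) * (sz A ^ 2 / Fintype.card Z) + Dev h A q.1 := by
    intro q
    have h2 : ∑ c : Z, Nn h A q.1 c ^ 2 = sz A ^ 2 / Fintype.card Z + Dev h A q.1 := by
      rw [Dev_eq]; ring
    rw [h2, mul_add]
    have := mul_le_of_le_one_left (Dev_nonneg h A q.1) (ind_le_one (B q))
    linarith
  have h3 : ∑ q : Y × Z, Dev h A q.1 = Fintype.card Z * ∑ y : Y, Dev h A y := by
    rw [Fintype.sum_prod_type, Finset.mul_sum]
    refine Finset.sum_congr rfl fun y _ => ?_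
    simp
  calc TT h A B ≤ ∑ q : Y × Z, (ind (B q) * (sz A ^ 2 / Fintype.card Z) + Dev h A q.1) :=
        Finset.sum_le_sum fun q _ => h1 q
    _ = sz B * (sz A ^ 2 / Fintype.card Z) + Fintype.card Z * ∑ y : Y, Dev h A y := by
        rw [Finset.sum_add_distrib, ← Finset.sum_mul, h3]; rfl
    _ ≤ sz B * (sz A ^ 2 / Fintype.card Z) + Fintype.card Z * (sz A * Fintype.card Y) := by
        have := mul_le_mul_of_nonneg_left (sum_Dev h A he) hm.le
        linarith
    _ = _ := by ring

/-- number of pairs of points of `A` with difference `v` -/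
noncomputable def al (v : X × Z) : ℝ := ∑ p : X × Z, ind (A p) * ind (A (p + v))

/-- number of flats of `B` parallel to `v` -/
noncomputable def be (v : X × Z) : ℝ := ∑ q : Y × Z, ind (B q) * ind (h q.1 v.1 = v.2)

lemma al_nonneg (v : X × Z) : 0 ≤ al A v :=
  Finset.sum_nonneg fun _ _ => mul_nonneg (ind_nonneg _) (ind_nonneg _)

lemma be_nonneg (v : X × Z) : 0 ≤ be h B v :=
  Finset.sum_nonneg fun _ _ => mul_nonneg (ind_nonneg _) (ind_nonneg _)

lemma sum_shift {α : Type} [AddCommGroup α] [Fintype α] (f : α → ℝ) (p : α) :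
    ∑ v : α, f (p + v) = ∑ v : α, f v :=
  Fintype.sum_equiv (Equiv.addLeft p) _ _ fun _ => rfl

lemma sum_al : ∑ v : X × Z, al A v = sz A ^ 2 := by
  unfold al sz
  rw [Finset.sum_comm, sq, Finset.sum_mul_sum]
  refine Finset.sum_congr rfl fun p _ => ?_
  rw [← Finset.mul_sum, ← Finset.mul_sum, sum_shift (fun v => ind (A v)) p]

lemma sum_be : ∑ v : X × Z, be h B v = sz B * Fintype.card X := by
  unfold be sz
  rw [Finset.sum_comm, Finset.sum_mul]
  refine Finset.sum_congr rfl fun q _ => ?_
  rw [← Finset.mul_sum, Fintype.sum_prod_type]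
  congr 1
  rw [Finset.sum_congr rfl fun x _ => sum_ind_eq' (h q.1 x), Finset.sum_const, nsmul_eq_mul, mul_one,
    Finset.card_univ]

lemma sum_al_be : ∑ v : X × Z, al A v * be h B v = TT h A B := by
  unfold al be TT
  have h1 : ∀ v : X × Z, (∑ p : X × Z, ind (A p) * ind (A (p + v))) *
      (∑ q : Y × Z, ind (B q) * ind (h q.1 v.1 = v.2))
      = ∑ q : Y × Z, ∑ p : X × Z, ind (B q) * (ind (A p) * ind (A (p + v)) * ind (h q.1 v.1 = v.2)) := by
    intro v
    rw [Finset.sum_mul_sum, Finset.sum_comm]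
    refine Finset.sum_congr rfl fun q _ => Finset.sum_congr rfl fun p _ => by ring
  rw [Finset.sum_congr rfl fun v _ => h1 v, Finset.sum_comm]
  refine Finset.sum_congr rfl fun q _ => ?_
  rw [sum_Nn_sq, Finset.sum_comm, Finset.mul_sum]
  refine Finset.sum_congr rfl fun p _ => ?_
  rw [← Finset.mul_sum]
  congr 1
  rw [← sum_shift (fun p' => ind (A p) * ind (A p') * ind (h q.1 p.1 - p.2 = h q.1 p'.1 - p'.2)) p]
  refine Finset.sum_congr rfl fun v _ => ?_
  congr 1
  unfold ind
  congr 1
  apply propext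
  simp only [Prod.fst_add, Prod.snd_add, map_add]
  constructor
  · intro hv
    rw [hv]; abel
  · intro hv
    have h2 : h q.1 p.1 + h q.1 v.1 - (p.2 + v.2) - (h q.1 p.1 - p.2) = 0 := by rw [← hv]; abel
    have h3 : h q.1 v.1 - v.2 = 0 := by rw [← h2]; abel
    exact sub_eq_zero.mp h3

end Sums

end Pool.Agent.K44
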