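import Pool.Agent.K44.Core

/-!
# K_{4,t}-free graphs of bilinear type: parallel pairs
-/

set_option autoImplicit false
set_option linter.unusedSectionVars false

open Finset

namespace Pool.Agent.K44

variable {X Y Z : Type} [AddCommGroup X] [AddCommGroup Z] [Fintype X] [Fintype Y] [Fintype Z]

variable (h : Y → X →+ Z) (A : X × Z → Prop) (B : Y × Z → Prop) (R : X × Z → Y × Z → Prop)

/-- number of triples `(p, p + v, q)` with `p R q` and `p + v R q` -/
noncomputable def ee (v : X × Z) : ℝ := ∑ q : Y × Z, ∑ p : X × Z, ind (R p q) * ind (R (p + v) q)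

lemma ee_nonneg (v : X × Z) : 0 ≤ ee R v :=
  Finset.sum_nonneg fun _ _ => Finset.sum_nonneg fun _ _ => mul_nonneg (ind_nonneg _) (ind_nonneg _)

/-- number of edges -/
noncomputable def eR : ℝ := ∑ q : Y × Z, ∑ p : X × Z, ind (R p q)

lemma eR_nonneg : 0 ≤ eR R :=
  Finset.sum_nonneg fun _ _ => Finset.sum_nonneg fun _ _ => ind_nonneg _

lemma ee_zero : ee R 0 = eR R := by
  unfold ee eR
  refine Finset.sum_congr rfl fun q _ => Finset.sum_congr rfl fun p _ => ?_
  rw [add_zero, ← sq, ind_sq]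

lemma sum_ee : ∑ v : X × Z, ee R v = ∑ q : Y × Z, (∑ p : X × Z, ind (R p q)) ^ 2 := by
  unfold ee
  rw [Finset.sum_comm]
  refine Finset.sum_congr rfl fun q _ => ?_
  rw [Finset.sum_comm, sq, Finset.sum_mul_sum]
  refine Finset.sum_congr rfl fun p _ => ?_
  rw [← Finset.mul_sum, ← Finset.mul_sum, sum_shift (fun v => ind (R v q)) p]

lemma eR_sq_le (hR : ∀ p q, R p q → A p ∧ B q ∧ Inc h p q) :
    eR R ^ 2 ≤ sz B * ∑ v : X × Z, ee R v := by
  rw [sum_ee]
  have h1 : eR R = ∑ q : Y × Z, ind (B q) * ∑ p : X × Z, ind (R p q) := by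
    unfold eR
    refine Finset.sum_congr rfl fun q _ => ?_
    by_cases hq : B q
    · rw [ind_true hq, one_mul]
    · rw [ind_false hq, zero_mul]
      exact Finset.sum_eq_zero fun p _ => ind_false fun hr => hq (hR p q hr).2.1
  rw [h1]
  calc (∑ q : Y × Z, ind (B q) * ∑ p : X × Z, ind (R p q)) ^ 2
      ≤ (∑ q : Y × Z, ind (B q) ^ 2) * ∑ q : Y × Z, (∑ p : X × Z, ind (R p q)) ^ 2 :=
        Finset.sum_mul_sq_le_sq_mul_sq _ _ _
    _ = _ := by
        congr 1
        unfold sz; exact Finset.sum_congr rfl fun q _ => ind_sq _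

/-- `R` has no four points with more than `t` common neighbours -/
def K4Free (t : ℕ) : Prop :=
  ∀ p₁ p₂ p₃ p₄ : X × Z, p₁ ≠ p₂ → p₁ ≠ p₃ → p₁ ≠ p₄ → p₂ ≠ p₃ → p₂ ≠ p₄ → p₃ ≠ p₄ →
    ∑ q : Y × Z, ind (R p₁ q ∧ R p₂ q ∧ R p₃ q ∧ R p₄ q) ≤ t

/-- the key estimate: the pairs with difference `v` -/
lemma ee_sq_le (hR : ∀ p q, R p q → A p ∧ B q ∧ Inc h p q) (t : ℕ) (hf : K4Free R t)
    (v : X × Z) (hv : v ≠ 0) :
    ee R v ^ 2 ≤ be h B v * (t * al A v ^ 2 + 3 * ee R v) := by
  classical
  set s : Y × Z → ℝ := fun q => ∑ p : X × Z, ind (R p q) * ind (R (p + v) q) with hs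
  set χ : Y × Z → ℝ := fun q => ind (B q) * ind (h q.1 v.1 = v.2) with hχ
  have h1 : ee R v = ∑ q : Y × Z, χ q * s q := by
    unfold ee
    refine Finset.sum_congr rfl fun q _ => ?_
    by_cases hq : B q ∧ h q.1 v.1 = v.2
    · simp only [hχ, hs]
      rw [ind_true hq.1, ind_true hq.2]; ring
    · simp only [hχ, hs]
      rw [ind_mul, ind_false hq, zero_mul]
      refine Finset.sum_eq_zero fun p _ => ?_
      rw [ind_mul]
      apply ind_false
      rintro ⟨r1, r2⟩
      apply hq
      have i1 := (hR _ _ r1).2.2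
      have i2 := (hR _ _ r2).2.2
      refine ⟨(hR _ _ r1).2.1, ?_⟩
      unfold Inc at i1 i2
      simp only [Prod.fst_add, Prod.snd_add, map_add] at i2
      rw [i1] at i2
      have : h q.1 v.1 = (p.2 + q.2 + h q.1 v.1) - (p.2 + q.2) := by abel
      rw [this, i2]; abel
  have h2 : ee R v ^ 2 ≤ be h B v * ∑ q : Y × Z, s q ^ 2 := by
    rw [h1]
    calc (∑ q : Y × Z, χ q * s q) ^ 2 ≤ (∑ q : Y × Z, χ q ^ 2) * ∑ q : Y × Z, s q ^ 2 :=
          Finset.sum_mul_sq_le_sq_mul_sq _ _ _
      _ = be h B v * ∑ q : Y × Z, s q ^ 2 := by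
          congr 1
          unfold be
          refine Finset.sum_congr rfl fun q _ => ?_
          simp only [hχ]
          rw [mul_pow, ind_sq, ind_sq]
  have h3 : ∑ q : Y × Z, s q ^ 2 = ∑ p : X × Z, ∑ p' : X × Z, ∑ q : Y × Z,
      ind (R p q ∧ R (p + v) q ∧ R p' q ∧ R (p' + v) q) := by
    have : ∀ q : Y × Z, s q ^ 2 = ∑ p : X × Z, ∑ p' : X × Z,
        ind (R p q ∧ R (p + v) q ∧ R p' q ∧ R (p' + v) q) := by
      intro q
      simp only [hs]
      rw [sq, Finset.sum_mul_sum]
      refine Finset.sum_congr rfl fun p _ => Finset.sum_congr rfl fun p' _ => ?_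
      rw [ind_mul, ind_mul, ind_mul]
      congr 1
      apply propext
      tauto
    rw [Finset.sum_congr rfl fun q _ => this q, Finset.sum_comm]
    refine Finset.sum_congr rfl fun p _ => ?_
    rw [Finset.sum_comm]
  have key : ∀ p p' : X × Z, ∑ q : Y × Z, ind (R p q ∧ R (p + v) q ∧ R p' q ∧ R (p' + v) q)
      ≤ t * ((ind (A p) * ind (A (p + v))) * (ind (A p') * ind (A (p' + v))))
        + (ind (p' = p) + ind (p' = p + v) + ind (p' = p - v)) *
          ∑ q : Y × Z, ind (R p q) * ind (R (p + v) q) := by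
    intro p p'
    have hnn : 0 ≤ (t : ℝ) * ((ind (A p) * ind (A (p + v))) * (ind (A p') * ind (A (p' + v)))) := by
      have := ind_nonneg (A p)
      have := ind_nonneg (A (p + v))
      have := ind_nonneg (A p')
      have := ind_nonneg (A (p' + v))
      positivity
    have hss : 0 ≤ ∑ q : Y × Z, ind (R p q) * ind (R (p + v) q) :=
      Finset.sum_nonneg fun _ _ => mul_nonneg (ind_nonneg _) (ind_nonneg _)
    by_cases hd : p' = p ∨ p' = p + v ∨ p' = p - v
    · have h4 : 1 ≤ ind (p' = p) + ind (p' = p + v) + ind (p' = p - v) := by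
        have a1 := ind_nonneg (p' = p)
        have a2 := ind_nonneg (p' = p + v)
        have a3 := ind_nonneg (p' = p - v)
        rcases hd with hd | hd | hd
        · have := ind_true hd; linarith
        · have := ind_true hd; linarith
        · have := ind_true hd; linarith
      have h5 : ∑ q : Y × Z, ind (R p q ∧ R (p + v) q ∧ R p' q ∧ R (p' + v) q)
          ≤ ∑ q : Y × Z, ind (R p q) * ind (R (p + v) q) := by
        refine Finset.sum_le_sum fun q _ => ?_
        rw [ind_mul]
        exact ind_mono fun hh => ⟨hh.1, hh.2.1⟩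
      nlinarith
    · push Not at hd
      obtain ⟨d1, d2, d3⟩ := hd
      have h6 : 0 ≤ (ind (p' = p) + ind (p' = p + v) + ind (p' = p - v)) *
          ∑ q : Y × Z, ind (R p q) * ind (R (p + v) q) := by
        have a1 := ind_nonneg (p' = p)
        have a2 := ind_nonneg (p' = p + v)
        have a3 := ind_nonneg (p' = p - v)
        positivity
      by_cases hA : (A p ∧ A (p + v)) ∧ (A p' ∧ A (p' + v))
      · rw [ind_mul, ind_mul, ind_mul, ind_true hA, mul_one]
        have h7 := hf p (p + v) p' (p' + v)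
          (by intro hh; apply hv; simpa using hh.symm)
          (Ne.symm d1)
          (by intro hh; apply d3; rw [hh]; abel)
          (Ne.symm d2)
          (by intro hh; apply d1; exact (add_right_cancel hh).symm)
          (by intro hh; apply hv; simpa using hh.symm)
        linarith
      · have h8 : ∀ q : Y × Z, ind (R p q ∧ R (p + v) q ∧ R p' q ∧ R (p' + v) q) = 0 := by
          intro q
          apply ind_false
          rintro ⟨r1, r2, r3, r4⟩
          exact hA ⟨⟨(hR _ _ r1).1, (hR _ _ r2).1⟩, ⟨(hR _ _ r3).1, (hR _ _ r4).1⟩⟩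
        rw [Finset.sum_congr rfl fun q _ => h8 q, Finset.sum_const_zero]
        linarith
  have h9 : ∑ q : Y × Z, s q ^ 2 ≤ t * al A v ^ 2 + 3 * ee R v := by
    rw [h3]
    calc _ ≤ ∑ p : X × Z, ∑ p' : X × Z,
          (t * ((ind (A p) * ind (A (p + v))) * (ind (A p') * ind (A (p' + v))))
        + (ind (p' = p) + ind (p' = p + v) + ind (p' = p - v)) *
          ∑ q : Y × Z, ind (R p q) * ind (R (p + v) q)) :=
          Finset.sum_le_sum fun p _ => Finset.sum_le_sum fun p' _ => key p p'
      _ = t * al A v ^ 2 + 3 * ee R v := by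
          rw [Finset.sum_congr rfl fun p _ => Finset.sum_add_distrib, Finset.sum_add_distrib]
          congr 1
          · unfold al
            rw [sq, Finset.sum_mul_sum, Finset.mul_sum]
            refine Finset.sum_congr rfl fun p _ => ?_
            rw [Finset.mul_sum]
          · unfold ee
            rw [Finset.sum_comm (f := fun q p => ind (R p q) * ind (R (p + v) q)), Finset.mul_sum]
            refine Finset.sum_congr rfl fun p _ => ?_
            rw [← Finset.sum_mul, Finset.sum_add_distrib, Finset.sum_add_distrib, sum_ind_eq,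
              sum_ind_eq, sum_ind_eq]
            norm_num
  calc ee R v ^ 2 ≤ be h B v * ∑ q : Y × Z, s q ^ 2 := h2
    _ ≤ be h B v * (t * al A v ^ 2 + 3 * ee R v) :=
        mul_le_mul_of_nonneg_left h9 (be_nonneg h B v)

lemma ee_le (hR : ∀ p q, R p q → A p ∧ B q ∧ Inc h p q) (t : ℕ) (hf : K4Free R t)
    (v : X × Z) (hv : v ≠ 0) :
    ee R v ≤ Real.sqrt t * (Real.sqrt (al A v) * Real.sqrt (al A v * be h B v)) + 3 * be h B v := by
  have h1 := ee_sq_le h A B R hR t hf v hv
  have ha := al_nonneg A v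
  have hb := be_nonneg h B v
  have he := ee_nonneg R v
  set a := al A v
  set b := be h B v
  set e := ee R v
  set w := Real.sqrt t * (Real.sqrt a * Real.sqrt (a * b)) with hw
  have hw0 : 0 ≤ w := by positivity
  have hw2 : w ^ 2 = t * (a * (a * b)) := by
    rw [hw, mul_pow, mul_pow, Real.sq_sqrt (Nat.cast_nonneg _), Real.sq_sqrt ha,
      Real.sq_sqrt (mul_nonneg ha hb)]
  by_contra hlt
  push Not at hlt
  have h2 : e ^ 2 ≤ w ^ 2 + 3 * b * e := by rw [hw2]; nlinarith
  nlinarith

/-- the main inequality -/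
lemma main_ineq (he : Equidist h) (hR : ∀ p q, R p q → A p ∧ B q ∧ Inc h p q) (t : ℕ)
    (hf : K4Free R t) :
    eR R ^ 2 ≤ sz B * eR R + sz B * (Real.sqrt t * (sz A * Real.sqrt
      (sz A ^ 2 * sz B / Fintype.card Z + Fintype.card Z * (sz A * Fintype.card Y))))
      + 3 * sz B ^ 2 * Fintype.card X := by
  classical
  have h1 := eR_sq_le h A B R hR
  have hB := sz_nonneg B
  have hA := sz_nonneg A
  have h2 : ∑ v : X × Z, ee R v ≤ eR R + ∑ v : X × Z, (Real.sqrt t * (Real.sqrt (al A v) *
      Real.sqrt (al A v * be h B v)) + 3 * be h B v) := by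
    rw [← Finset.add_sum_erase _ _ (mem_univ (0 : X × Z)), ee_zero]
    have h3 : ∑ v ∈ univ.erase (0 : X × Z), ee R v ≤ ∑ v ∈ univ.erase (0 : X × Z),
        (Real.sqrt t * (Real.sqrt (al A v) * Real.sqrt (al A v * be h B v)) + 3 * be h B v) :=
      Finset.sum_le_sum fun v hv => ee_le h A B R hR t hf v (Finset.ne_of_mem_erase hv)
    have h4 : ∑ v ∈ univ.erase (0 : X × Z),
        (Real.sqrt t * (Real.sqrt (al A v) * Real.sqrt (al A v * be h B v)) + 3 * be h B v)
        ≤ ∑ v : X × Z,
        (Real.sqrt t * (Real.sqrt (al A v) * Real.sqrt (al A v * be h B v)) + 3 * be h B v) := by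
      refine Finset.sum_le_sum_of_subset_of_nonneg (Finset.erase_subset _ _) fun v _ _ => ?_
      have := be_nonneg h B v
      positivity
    linarith
  have h5 : ∑ v : X × Z, (Real.sqrt t * (Real.sqrt (al A v) * Real.sqrt (al A v * be h B v))
      + 3 * be h B v) ≤ Real.sqrt t * (sz A * Real.sqrt (TT h A B)) + 3 * (sz B * Fintype.card X) := by
    rw [Finset.sum_add_distrib, ← Finset.mul_sum, ← Finset.mul_sum, sum_be]
    have h6 : ∑ v : X × Z, Real.sqrt (al A v) * Real.sqrt (al A v * be h B v)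
        ≤ sz A * Real.sqrt (TT h A B) := by
      have h7 := Real.sum_sqrt_mul_sqrt_le (s := (univ : Finset (X × Z))) (f := fun v => al A v)
        (g := fun v => al A v * be h B v) (fun v => al_nonneg A v)
        (fun v => mul_nonneg (al_nonneg A v) (be_nonneg h B v))
      rw [sum_al, sum_al_be, Real.sqrt_sq hA] at h7
      exact h7
    have := mul_le_mul_of_nonneg_left h6 (Real.sqrt_nonneg t)
    linarith
  have h8 : Real.sqrt (TT h A B) ≤ Real.sqrt
      (sz A ^ 2 * sz B / Fintype.card Z + Fintype.card Z * (sz A * Fintype.card Y)) :=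
    Real.sqrt_le_sqrt (TT_le h A B he)
  have h9 : Real.sqrt t * (sz A * Real.sqrt (TT h A B)) ≤ Real.sqrt t * (sz A * Real.sqrt
      (sz A ^ 2 * sz B / Fintype.card Z + Fintype.card Z * (sz A * Fintype.card Y))) :=
    mul_le_mul_of_nonneg_left (mul_le_mul_of_nonneg_left h8 hA) (Real.sqrt_nonneg t)
  calc eR R ^ 2 ≤ sz B * ∑ v : X × Z, ee R v := h1
    _ ≤ sz B * (eR R + (Real.sqrt t * (sz A * Real.sqrt
      (sz A ^ 2 * sz B / Fintype.card Z + Fintype.card Z * (sz A * Fintype.card Y)))
        + 3 * (sz B * Fintype.card X))) :=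
        mul_le_mul_of_nonneg_left (by linarith) hB
    _ = _ := by ring

end Pool.Agent.K44
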