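import Mathlib

/-!
# Points and flats
-/

set_option autoImplicit false

namespace Pool.Agent.K44

variable {V X Y Z : Type} [AddCommGroup X] [AddCommGroup Z]

/-- The point `p = (x, z)` is incident to the flat `q = (y, w)`: `h y x = z + w`. -/
def Inc (h : Y → X →+ Z) (p : X × Z) (q : Y × Z) : Prop := h q.1 p.1 = p.2 + q.2

/-- For every nonzero `a` the values `h y a`, for `y` in `Y`, are equidistributed in `Z`. -/
def Equidist (h : Y → X →+ Z) : Prop :=
  ∀ a : X, a ≠ 0 → ∀ z : Z,
    Nat.card Z * Nat.card {y : Y // h y a = z} = Nat.card Y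

/-- `u` is in `S`, `v` is in `T` and the point `P u` is incident to the flat `Q v`. -/
def IncPair (h : Y → X →+ Z) (S T : Set V) (P : V → X × Z) (Q : V → Y × Z) (e : V × V) : Prop :=
  e.1 ∈ S ∧ e.2 ∈ T ∧ Inc h (P e.1) (Q e.2)

end Pool.Agent.K44
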