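import Mathlib

/-!
# K_{4,t}-free graphs of bilinear type: the real inequality
-/

set_option autoImplicit false

namespace Pool.Agent.K44

lemma aux_pow3 (K : ℝ) (hK8 : 8 ≤ K) : 64 * K ≤ K ^ 3 := by
  have h1 : (64 : ℝ) ≤ K ^ 2 := by nlinarith
  have h2 : K ^ 3 = K ^ 2 * K := by ring
  rw [h2]
  exact mul_le_mul_of_nonneg_right h1 (by linarith)

lemma aux_pow5 (K : ℝ) (hK8 : 8 ≤ K) : 64 * K ≤ K ^ 5 := by
  have h1 := aux_pow3 K hK8
  have h2 : K ^ 3 ≤ K ^ 5 := pow_le_pow_right₀ (by linarith) (by norm_num)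
  linarith

/-- the square root term -/
lemma aux_sqrt (t K C1 u s e W : ℝ) (ht : 0 ≤ t) (hK8 : 8 ≤ K) (hKt : 8 * ((t + 1) * C1) ≤ K)
    (hC1 : 3 ≤ C1) (hu0 : 0 < u) (hs : 0 ≤ s) (epos : 0 < e) (E1 : K * u ^ 5 ≤ e)
    (E3 : K * (u ^ 3 * s) ≤ e) (hW0 : 0 ≤ W)
    (hW : W ≤ u ^ 3 * (C1 * e) + u ^ 9 * s ^ 2 * (2 / e)) :
    Real.sqrt t * (u ^ 6 * Real.sqrt W) ≤ e ^ 2 / 4 := by
  have hK0 : 0 < K := by linarith
  have hC0 : 0 < C1 := by linarith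
  have h11 : 0 ≤ e ^ 2 / 4 := by positivity
  refine (sq_le_sq₀ (by positivity) h11).mp ?_
  rw [mul_pow, mul_pow, Real.sq_sqrt ht, Real.sq_sqrt hW0]
  have htC : t * C1 ≤ (t + 1) * C1 := mul_le_mul_of_nonneg_right (by linarith) hC0.le
  have h12 : t * ((u ^ 6) ^ 2 * (u ^ 3 * (C1 * e))) ≤ e ^ 4 / 32 := by
    have h13 : (K * u ^ 5) ^ 3 ≤ e ^ 3 := pow_le_pow_left₀ (by positivity) E1 3
    have h14 : 32 * (t * C1) ≤ K ^ 3 := by
      have := aux_pow3 K hK8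
      linarith
    have h16 : t * C1 * u ^ 15 ≤ e ^ 3 / 32 := by
      have h17 : 32 * (t * C1) * u ^ 15 ≤ K ^ 3 * u ^ 15 :=
        mul_le_mul_of_nonneg_right h14 (by positivity)
      have h18 : (K * u ^ 5) ^ 3 = K ^ 3 * u ^ 15 := by ring
      linarith
    calc t * ((u ^ 6) ^ 2 * (u ^ 3 * (C1 * e))) = (t * C1 * u ^ 15) * e := by ring
      _ ≤ e ^ 3 / 32 * e := mul_le_mul_of_nonneg_right h16 epos.le
      _ = e ^ 4 / 32 := by ring
  have h19 : t * ((u ^ 6) ^ 2 * (u ^ 9 * s ^ 2 * (2 / e))) ≤ e ^ 4 / 32 := by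
    have h20 : (K * u ^ 5) ^ 3 * (K * (u ^ 3 * s)) ^ 2 ≤ e ^ 3 * e ^ 2 :=
      mul_le_mul (pow_le_pow_left₀ (by positivity) E1 3) (pow_le_pow_left₀ (by positivity) E3 2)
        (by positivity) (by positivity)
    have h21 : (K * u ^ 5) ^ 3 * (K * (u ^ 3 * s)) ^ 2 = K ^ 5 * (u ^ 21 * s ^ 2) := by ring
    have h22 : 64 * t ≤ K ^ 5 := by
      have h5 := aux_pow5 K hK8
      have h6 : t * 1 ≤ t * C1 := mul_le_mul_of_nonneg_left (by linarith) ht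
      linarith
    have h24 : 64 * t * (u ^ 21 * s ^ 2) ≤ e ^ 5 := by
      have h7 : 64 * t * (u ^ 21 * s ^ 2) ≤ K ^ 5 * (u ^ 21 * s ^ 2) :=
        mul_le_mul_of_nonneg_right h22 (by positivity)
      calc _ ≤ K ^ 5 * (u ^ 21 * s ^ 2) := h7
        _ = _ := h21.symm
        _ ≤ e ^ 3 * e ^ 2 := h20
        _ = e ^ 5 := by ring
    have h25 : t * ((u ^ 6) ^ 2 * (u ^ 9 * s ^ 2 * (2 / e)))
        = (64 * t * (u ^ 21 * s ^ 2)) / (32 * e) := by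
      rw [eq_div_iff (by positivity)]
      have h8 : (2 / e) * e = 2 := div_mul_cancel₀ _ epos.ne'
      calc t * ((u ^ 6) ^ 2 * (u ^ 9 * s ^ 2 * (2 / e))) * (32 * e)
          = 32 * t * (u ^ 21 * s ^ 2) * ((2 / e) * e) := by ring
        _ = 64 * t * (u ^ 21 * s ^ 2) := by rw [h8]; ring
    rw [h25, div_le_iff₀ (by positivity)]
    calc 64 * t * (u ^ 21 * s ^ 2) ≤ e ^ 5 := h24
      _ = e ^ 4 / 32 * (32 * e) := by ring
  calc t * ((u ^ 6) ^ 2 * W)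
      ≤ t * ((u ^ 6) ^ 2 * (u ^ 3 * (C1 * e) + u ^ 9 * s ^ 2 * (2 / e))) := by
        apply mul_le_mul_of_nonneg_left _ ht
        exact mul_le_mul_of_nonneg_left hW (by positivity)
    _ = t * ((u ^ 6) ^ 2 * (u ^ 3 * (C1 * e)))
        + t * ((u ^ 6) ^ 2 * (u ^ 9 * s ^ 2 * (2 / e))) := by ring
    _ ≤ e ^ 4 / 32 + e ^ 4 / 32 := by linarith
    _ = (e ^ 2 / 4) ^ 2 := by ring

/-- the bound for the square root term -/
lemma aux_W (C1 u s a b m e D : ℝ) (hs : 0 ≤ s) (ha : 0 ≤ a) (ha' : a ≤ u ^ 3) (hb : 0 ≤ b)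
    (hb' : b ≤ u ^ 3) (hu3 : 0 < u ^ 3) (epos : 0 < e) (hD : D = a * b / m)
    (hDlow : e / 2 ≤ D) (hDup : D ≤ C1 * e) :
    a ^ 2 * b / m + m * (a * s ^ 2) ≤ u ^ 3 * (C1 * e) + u ^ 9 * s ^ 2 * (2 / e) := by
  have hDpos : 0 < D := by linarith
  have hab0 : a * b ≠ 0 := by
    intro h0
    rw [hD, h0, zero_div] at hDpos
    exact lt_irrefl _ hDpos
  have habm : m = a * b / D := by
    rw [hD, div_div_eq_mul_div, mul_comm (a * b) m, mul_div_assoc, div_self hab0, mul_one]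
  have hW1 : a ^ 2 * b / m ≤ u ^ 3 * (C1 * e) := by
    have h0 : a ^ 2 * b / m = a * D := by rw [hD]; ring
    rw [h0]
    exact mul_le_mul ha' hDup hDpos.le hu3.le
  have hW2 : m * (a * s ^ 2) ≤ u ^ 9 * s ^ 2 * (2 / e) := by
    have h8 : m * (a * s ^ 2) = (a * (a * b)) * s ^ 2 * (1 / D) := by
      calc m * (a * s ^ 2) = (a * b / D) * (a * s ^ 2) := by rw [← habm]
        _ = (a * (a * b)) * s ^ 2 * (1 / D) := by ring
    rw [h8]
    have h9 : a * (a * b) ≤ u ^ 9 := by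
      calc a * (a * b) ≤ u ^ 3 * (u ^ 3 * u ^ 3) :=
            mul_le_mul ha' (mul_le_mul ha' hb' hb hu3.le) (mul_nonneg ha hb) hu3.le
        _ = u ^ 9 := by ring
    have h10 : 1 / D ≤ 2 / e := by
      rw [div_le_div_iff₀ hDpos epos]; linarith
    have h11 : 0 ≤ s ^ 2 := by positivity
    calc a * (a * b) * s ^ 2 * (1 / D) ≤ u ^ 9 * s ^ 2 * (1 / D) := by
          apply mul_le_mul_of_nonneg_right _ (by positivity)
          exact mul_le_mul_of_nonneg_right h9 h11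
      _ ≤ u ^ 9 * s ^ 2 * (2 / e) := by
          apply mul_le_mul_of_nonneg_left h10
          have h12 : u ^ 9 = (u ^ 3) ^ 3 := by ring
          rw [h12]; positivity
  linarith

/-- the deviation from the mean -/
lemma aux_dev (u s a b e I D : ℝ) (ha' : a ≤ u ^ 3) (hb : 0 ≤ b)
    (hb' : b ≤ u ^ 3) (ha : 0 ≤ a) (hs : 0 ≤ s) (hu3 : 0 < u ^ 3) (he : 0 < e)
    (hus : u ^ 3 * s ≤ e / 8) (h2 : (I - D) ^ 2 ≤ b * (a * s ^ 2)) : |I - D| ≤ e / 8 := by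
  have h7 : (I - D) ^ 2 ≤ (e / 8) ^ 2 := by
    calc (I - D) ^ 2 ≤ b * (a * s ^ 2) := h2
      _ ≤ u ^ 3 * (u ^ 3 * s ^ 2) := by
          apply mul_le_mul hb' _ (by positivity) hu3.le
          exact mul_le_mul_of_nonneg_right ha' (by positivity)
      _ = (u ^ 3 * s) ^ 2 := by ring
      _ ≤ (e / 8) ^ 2 := pow_le_pow_left₀ (by positivity) hus 2
  exact abs_le_of_sq_le_sq h7 (by positivity)

lemma real_core (t : ℕ) (c u r s a b m e I : ℝ) (hc : 0 < c) (hc1 : c ≤ 1) (hu : 1 ≤ u)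
    (hr : 0 ≤ r) (hs : 0 ≤ s) (ha : 0 ≤ a) (ha' : a ≤ u ^ 3) (hb : 0 ≤ b) (hb' : b ≤ u ^ 3)
    (hm : 0 < m) (he : 0 ≤ e) (h1 : e ≤ I) (h2 : (I - a * b / m) ^ 2 ≤ b * (a * s ^ 2))
    (h3 : c * I ≤ e + u ^ 3)
    (h4 : e ^ 2 ≤ b * e + b * (Real.sqrt t * (a * Real.sqrt (a ^ 2 * b / m + m * (a * s ^ 2))))
      + 3 * b ^ 2 * r ^ 2) :
    e ≤ (8 + 8 * (t + 1) * (3 / c)) * u ^ 3 * (u ^ 2 + r + s) := by
  by_contra hlt
  push Not at hlt
  have hC1pos : 3 ≤ 3 / c := by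
    rw [le_div_iff₀ hc]; linarith
  generalize hC1 : 3 / c = C1 at *
  have ht : (0 : ℝ) ≤ t := Nat.cast_nonneg t
  have hKdef : 8 * (((t : ℝ) + 1) * C1) = 8 * ((t : ℝ) + 1) * C1 := by ring
  have hpos1 : 0 ≤ ((t : ℝ) + 1) * C1 := by
    have : 0 ≤ C1 := by linarith
    positivity
  have hKt : 8 * (((t : ℝ) + 1) * C1) ≤ 8 + 8 * ((t : ℝ) + 1) * C1 := by linarith
  have hK8 : 8 ≤ 8 + 8 * ((t : ℝ) + 1) * C1 := by linarith
  generalize hK : 8 + 8 * ((t : ℝ) + 1) * C1 = K at *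
  have hK0 : 0 < K := by linarith
  have hu0 : 0 < u := by linarith
  have hu3 : 0 < u ^ 3 := by positivity
  have hsum : K * u ^ 3 * (u ^ 2 + r + s) = K * u ^ 5 + K * (u ^ 3 * r) + K * (u ^ 3 * s) := by ring
  have p1 : 0 ≤ K * u ^ 5 := by positivity
  have p2 : 0 ≤ K * (u ^ 3 * r) := by positivity
  have p3 : 0 ≤ K * (u ^ 3 * s) := by positivity
  rw [hsum] at hlt
  have E1 : K * u ^ 5 ≤ e := by linarith
  have E2 : K * (u ^ 3 * r) ≤ e := by linarith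
  have E3 : K * (u ^ 3 * s) ≤ e := by linarith
  have p4 : 0 < K * u ^ 5 := by positivity
  have epos : 0 < e := by linarith
  have hn : 8 * u ^ 3 ≤ e := by
    have h5 : u ^ 3 ≤ u ^ 5 := pow_le_pow_right₀ hu (by norm_num)
    have h6 : 8 * u ^ 5 ≤ K * u ^ 5 := mul_le_mul_of_nonneg_right hK8 (by positivity)
    linarith
  have hus : u ^ 3 * s ≤ e / 8 := by
    have h6 : 8 * (u ^ 3 * s) ≤ K * (u ^ 3 * s) := mul_le_mul_of_nonneg_right hK8 (by positivity)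
    linarith
  have hur : u ^ 3 * r ≤ e / 8 := by
    have h6 : 8 * (u ^ 3 * r) ≤ K * (u ^ 3 * r) := mul_le_mul_of_nonneg_right hK8 (by positivity)
    linarith
  have habs := aux_dev u s a b e I (a * b / m) ha' hb hb' ha hs hu3 epos hus h2
  have hab := abs_le.mp habs
  have hDlow : e / 2 ≤ a * b / m := by linarith [hab.2]
  have hIle : I ≤ 2 * e / c := by
    rw [le_div_iff₀ hc]; linarith
  have hec : e ≤ e / c := by
    rw [le_div_iff₀ hc]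
    have := mul_le_mul_of_nonneg_left hc1 epos.le
    linarith
  have hDup : a * b / m ≤ C1 * e := by
    have h7 : C1 * e = 2 * e / c + e / c := by rw [← hC1]; ring
    rw [h7]
    linarith [hab.1]
  have hW0 : 0 ≤ a ^ 2 * b / m + m * (a * s ^ 2) := by positivity
  have hW := aux_W C1 u s a b m e (a * b / m) hs ha ha' hb hb' hu3 epos rfl hDlow hDup
  have hsq := aux_sqrt t K C1 u s e _ ht hK8 hKt hC1pos hu0 hs epos E1 E3 hW0 hW
  have hT2 : b * (Real.sqrt t * (a * Real.sqrt (a ^ 2 * b / m + m * (a * s ^ 2)))) ≤ e ^ 2 / 4 := by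
    calc b * (Real.sqrt t * (a * Real.sqrt (a ^ 2 * b / m + m * (a * s ^ 2))))
        = Real.sqrt t * ((a * b) * Real.sqrt (a ^ 2 * b / m + m * (a * s ^ 2))) := by ring
      _ ≤ Real.sqrt t * (u ^ 6 * Real.sqrt (a ^ 2 * b / m + m * (a * s ^ 2))) := by
          apply mul_le_mul_of_nonneg_left _ (Real.sqrt_nonneg _)
          apply mul_le_mul_of_nonneg_right _ (Real.sqrt_nonneg _)
          calc a * b ≤ u ^ 3 * u ^ 3 := mul_le_mul ha' hb' hb hu3.le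
            _ = u ^ 6 := by ring
      _ ≤ e ^ 2 / 4 := hsq
  have hT1 : b * e ≤ e ^ 2 / 8 := by
    have h8 : b ≤ e / 8 := by linarith
    calc b * e ≤ e / 8 * e := mul_le_mul_of_nonneg_right h8 epos.le
      _ = e ^ 2 / 8 := by ring
  have hT3 : 3 * b ^ 2 * r ^ 2 ≤ e ^ 2 / 8 := by
    have h28 : (b * r) ^ 2 ≤ (e / 8) ^ 2 := by
      apply pow_le_pow_left₀ (by positivity)
      have h9 : b * r ≤ u ^ 3 * r := mul_le_mul_of_nonneg_right hb' hr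
      linarith
    have h29 : 3 * b ^ 2 * r ^ 2 = 3 * (b * r) ^ 2 := by ring
    have h30 : (e / 8) ^ 2 = e ^ 2 / 64 := by ring
    have h31 : 0 ≤ e ^ 2 := by positivity
    rw [h29]
    linarith
  have h31 : 0 < e ^ 2 := by positivity
  linarith

end Pool.Agent.K44
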