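import Pool.Agent.K44.Count
import Pool.Agent.K44.Real

/-!
# K_{4,t}-free graphs of bilinear type: the graph statement
-/

set_option autoImplicit false
set_option linter.unusedSectionVars false

open Finset

namespace Pool.Agent.K44

variable {V X Y Z : Type} [AddCommGroup X] [AddCommGroup Z]

variable [Fintype V] [Fintype X] [Fintype Y] [Fintype Z]

lemma sum_ind_image {α β : Type} [Fintype α] [Fintype β] (S : Set α) (P : α → β)
    (hP : Set.InjOn P S) (F : β → ℝ) :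
    ∑ b : β, ind (∃ a ∈ S, P a = b) * F b = ∑ a : α, ind (a ∈ S) * F (P a) := by
  classical
  have h1 : ∀ b : β, ind (∃ a ∈ S, P a = b) = ∑ a : α, ind (a ∈ S) * ind (P a = b) := by
    intro b
    by_cases hb : ∃ a ∈ S, P a = b
    · rw [ind_true hb]
      obtain ⟨a, ha, hab⟩ := hb
      rw [Finset.sum_eq_single a]
      · rw [ind_true ha, ind_true hab, one_mul]
      · intro a' _ ha'
        rw [ind_mul]
        apply ind_false
        rintro ⟨h2, h3⟩
        exact ha' (hP h2 ha (h3.trans hab.symm))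
      · intro h; exact absurd (mem_univ a) h
    · rw [ind_false hb]
      symm
      apply Finset.sum_eq_zero
      intro a _
      rw [ind_mul]
      apply ind_false
      rintro ⟨h2, h3⟩
      exact hb ⟨a, h2, h3⟩
  have h2 : ∀ b : β, ind (∃ a ∈ S, P a = b) * F b
      = ∑ a : α, ind (a ∈ S) * (ind (P a = b) * F (P a)) := by
    intro b
    rw [h1, Finset.sum_mul]
    refine Finset.sum_congr rfl fun a _ => ?_
    by_cases hab : P a = b
    · rw [hab]; ring
    · rw [ind_false hab]; ring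
  rw [Finset.sum_congr rfl fun b _ => h2 b, Finset.sum_comm]
  refine Finset.sum_congr rfl fun a _ => ?_
  rw [← Finset.mul_sum, ← Finset.sum_mul, sum_ind_eq', one_mul]

variable (h : Y → X →+ Z) (S T : Set V) (P : V → X × Z) (Q : V → Y × Z) (G : SimpleGraph V)

/-- the point set -/
def Aset : X × Z → Prop := fun p => ∃ u ∈ S, P u = p

/-- the relation on points and flats -/
def Rel (p : X × Z) (q : Y × Z) : Prop :=
  ∃ u ∈ S, ∃ v ∈ T, P u = p ∧ Q v = q ∧ G.Adj u v ∧ Inc h p q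

lemma Rel_spec (p : X × Z) (q : Y × Z) (hr : Rel h S T P Q G p q) :
    Aset S P p ∧ (∃ v ∈ T, Q v = q) ∧ Inc h p q := by
  obtain ⟨u, hu, v, hv, h1, h2, h3, h4⟩ := hr
  exact ⟨⟨u, hu, h1⟩, ⟨v, hv, h2⟩, h4⟩

lemma sz_le {β : Type} [Fintype β] (S : Set V) (P : V → β) (hP : Set.InjOn P S) :
    sz (fun b => ∃ a ∈ S, P a = b) ≤ Fintype.card V := by
  have h1 : sz (fun b => ∃ a ∈ S, P a = b) = ∑ u : V, ind (u ∈ S) := by
    have := sum_ind_image S P hP (fun _ => (1 : ℝ))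
    simpa [sz] using this
  rw [h1]
  calc ∑ u : V, ind (u ∈ S) ≤ ∑ _u : V, (1 : ℝ) := Finset.sum_le_sum fun _ _ => ind_le_one _
    _ = Fintype.card V := by simp

lemma II_eq (hP : Set.InjOn P S) (hQ : Set.InjOn Q T) :
    II h (Aset S P) (fun q => ∃ v ∈ T, Q v = q)
      = (Nat.card {e : V × V // IncPair h S T P Q e} : ℝ) := by
  unfold II
  rw [sum_ind_image T Q hQ (fun q => Nn h (Aset S P) q.1 q.2), ← sum_ind_card, Fintype.sum_prod_type_right]
  refine Finset.sum_congr rfl fun v _ => ?_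
  unfold Nn
  have := sum_ind_image S P hP (fun p => ind (h (Q v).1 p.1 - p.2 = (Q v).2))
  unfold Aset
  rw [this, Finset.mul_sum]
  refine Finset.sum_congr rfl fun u _ => ?_
  rw [← mul_assoc, ind_mul, ind_mul]
  congr 1
  apply propext
  unfold IncPair Inc
  simp only
  constructor
  · rintro ⟨⟨h1, h2⟩, h3⟩
    exact ⟨h2, h1, by rw [sub_eq_iff_eq_add] at h3; rw [h3]; abel⟩
  · rintro ⟨h1, h2, h3⟩
    exact ⟨⟨h2, h1⟩, by rw [h3]; abel⟩

lemma eR_eq (hP : Set.InjOn P S) (hQ : Set.InjOn Q T) :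
    eR (Rel h S T P Q G)
      = (Nat.card {e : V × V // IncPair h S T P Q e ∧ G.Adj e.1 e.2} : ℝ) := by
  classical
  rw [← sum_ind_card, Fintype.sum_prod_type_right]
  unfold eR
  have h0 : ∀ q : Y × Z, ∑ p : X × Z, ind (Rel h S T P Q G p q)
      = ind (∃ v ∈ T, Q v = q) * ∑ p : X × Z, ind (Rel h S T P Q G p q) := by
    intro q
    by_cases hq : ∃ v ∈ T, Q v = q
    · rw [ind_true hq, one_mul]
    · rw [ind_false hq, zero_mul]
      exact Finset.sum_eq_zero fun p _ => ind_false fun hr => hq (Rel_spec h S T P Q G p q hr).2.1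
  rw [Finset.sum_congr rfl fun q _ => h0 q,
    sum_ind_image T Q hQ (fun q => ∑ p : X × Z, ind (Rel h S T P Q G p q))]
  refine Finset.sum_congr rfl fun v _ => ?_
  have h1 : ∀ p : X × Z, ind (Rel h S T P Q G p (Q v))
      = ind (∃ u ∈ S, P u = p) * ind (Rel h S T P Q G p (Q v)) := by
    intro p
    by_cases hp : ∃ u ∈ S, P u = p
    · rw [ind_true hp, one_mul]
    · rw [ind_false hp, zero_mul]
      exact ind_false fun hr => hp (Rel_spec h S T P Q G p (Q v) hr).1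
  rw [Finset.sum_congr rfl fun p _ => h1 p,
    sum_ind_image S P hP (fun p => ind (Rel h S T P Q G p (Q v))), Finset.mul_sum]
  refine Finset.sum_congr rfl fun u _ => ?_
  rw [← mul_assoc, ind_mul, ind_mul]
  congr 1
  apply propext
  unfold IncPair
  simp only
  constructor
  · rintro ⟨⟨h2, h3⟩, ⟨u', hu', v', hv', h4, h5, h6, h7⟩⟩
    have e1 := hP hu' h3 h4
    have e2 := hQ hv' h2 h5
    subst e1
    subst e2
    exact ⟨⟨h3, h2, h7⟩, h6⟩
  · rintro ⟨⟨h2, h3, h4⟩, h5⟩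
    exact ⟨⟨h3, h2⟩, ⟨u, h2, v, h3, rfl, rfl, h5, h4⟩⟩

lemma edges_le (hP : Set.InjOn P S) (hQ : Set.InjOn Q T)
    (hG : ∀ u v, G.Adj u v → IncPair h S T P Q (u, v) ∨ IncPair h S T P Q (v, u)) :
    (Nat.card G.edgeSet : ℝ) ≤ eR (Rel h S T P Q G) := by
  classical
  rw [eR_eq h S T P Q G hP hQ]
  have hsurj : Function.Surjective (fun e : {e : V × V // IncPair h S T P Q e ∧ G.Adj e.1 e.2} =>
      (⟨s(e.1.1, e.1.2), e.2.2⟩ : G.edgeSet)) := by
    rintro ⟨e, he⟩
    induction e using Sym2.ind with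
    | _ u v =>
      rcases hG u v he with h1 | h1
      · exact ⟨⟨(u, v), h1, he⟩, rfl⟩
      · refine ⟨⟨(v, u), h1, (he : G.Adj u v).symm⟩, ?_⟩
        apply Subtype.ext
        exact Sym2.eq_swap
  exact_mod_cast Nat.card_le_card_of_surjective _ hsurj

lemma K4_of_free (hP : Set.InjOn P S) (hQ : Set.InjOn Q T) (t : ℕ)
    (hf : (completeBipartiteGraph (Fin 4) (Fin t)).Free G) : K4Free (Rel h S T P Q G) t := by
  classical
  intro p₁ p₂ p₃ p₄ h12 h13 h14 h23 h24 h34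
  by_contra hlt
  push Not at hlt
  rw [sum_ind_card] at hlt
  have hlt' : t < Nat.card {q : Y × Z // Rel h S T P Q G p₁ q ∧ Rel h S T P Q G p₂ q ∧
      Rel h S T P Q G p₃ q ∧ Rel h S T P Q G p₄ q} := by exact_mod_cast hlt
  -- choose vertices
  have hnon : Nonempty {q : Y × Z // Rel h S T P Q G p₁ q ∧ Rel h S T P Q G p₂ q ∧
      Rel h S T P Q G p₃ q ∧ Rel h S T P Q G p₄ q} := by
    by_contra hne
    rw [not_nonempty_iff] at hne
    rw [Nat.card_of_isEmpty] at hlt'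
    omega
  obtain ⟨q₀, r1, r2, r3, r4⟩ := hnon.some
  obtain ⟨u₁, hu₁, _, _, a1, _, _, _⟩ := r1
  obtain ⟨u₂, hu₂, _, _, a2, _, _, _⟩ := r2
  obtain ⟨u₃, hu₃, _, _, a3, _, _, _⟩ := r3
  obtain ⟨u₄, hu₄, _, _, a4, _, _, _⟩ := r4
  -- every common neighbour comes from a vertex
  have hex : ∀ q : {q : Y × Z // Rel h S T P Q G p₁ q ∧ Rel h S T P Q G p₂ q ∧
      Rel h S T P Q G p₃ q ∧ Rel h S T P Q G p₄ q},
      ∃ v : V, Q v = q.1 ∧ G.Adj u₁ v ∧ G.Adj u₂ v ∧ G.Adj u₃ v ∧ G.Adj u₄ v := by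
    rintro ⟨q, ⟨w1, hw1, v1, hv1, b1, c1, d1, _⟩, ⟨w2, hw2, v2, hv2, b2, c2, d2, _⟩,
      ⟨w3, hw3, v3, hv3, b3, c3, d3, _⟩, ⟨w4, hw4, v4, hv4, b4, c4, d4, _⟩⟩
    have e1 : w1 = u₁ := hP hw1 hu₁ (b1.trans a1.symm)
    have e2 : w2 = u₂ := hP hw2 hu₂ (b2.trans a2.symm)
    have e3 : w3 = u₃ := hP hw3 hu₃ (b3.trans a3.symm)
    have e4 : w4 = u₄ := hP hw4 hu₄ (b4.trans a4.symm)
    have f2 : v2 = v1 := hQ hv2 hv1 (c2.trans c1.symm)
    have f3 : v3 = v1 := hQ hv3 hv1 (c3.trans c1.symm)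
    have f4 : v4 = v1 := hQ hv4 hv1 (c4.trans c1.symm)
    subst e1 e2 e3 e4 f2 f3 f4
    exact ⟨_, c1, d1, d2, d3, d4⟩
  choose g hg using hex
  have ginj : Function.Injective g := by
    intro q q' hqq
    apply Subtype.ext
    rw [← (hg q).1, ← (hg q').1, hqq]
  have hemb : ∃ k : Fin t → {q : Y × Z // Rel h S T P Q G p₁ q ∧ Rel h S T P Q G p₂ q ∧
      Rel h S T P Q G p₃ q ∧ Rel h S T P Q G p₄ q}, Function.Injective k := by
    rw [Nat.card_eq_fintype_card] at hlt'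
    have : Fintype.card (Fin t) ≤ Fintype.card {q : Y × Z // Rel h S T P Q G p₁ q ∧
      Rel h S T P Q G p₂ q ∧ Rel h S T P Q G p₃ q ∧ Rel h S T P Q G p₄ q} := by
      rw [Fintype.card_fin]; exact hlt'.le
    obtain ⟨k⟩ := Function.Embedding.nonempty_of_card_le this
    exact ⟨k, k.injective⟩
  obtain ⟨k, kinj⟩ := hemb
  apply hf
  have hadj : ∀ (i : Fin 4) (j : Fin t), G.Adj (![u₁, u₂, u₃, u₄] i) (g (k j)) := by
    intro i j
    have := hg (k j)
    fin_cases i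
    · exact this.2.1
    · exact this.2.2.1
    · exact this.2.2.2.1
    · exact this.2.2.2.2
  have uinj : Function.Injective (![u₁, u₂, u₃, u₄] : Fin 4 → V) := by
    have n12 : u₁ ≠ u₂ := by rintro rfl; exact h12 (a1.symm.trans a2)
    have n13 : u₁ ≠ u₃ := by rintro rfl; exact h13 (a1.symm.trans a3)
    have n14 : u₁ ≠ u₄ := by rintro rfl; exact h14 (a1.symm.trans a4)
    have n23 : u₂ ≠ u₃ := by rintro rfl; exact h23 (a2.symm.trans a3)
    have n24 : u₂ ≠ u₄ := by rintro rfl; exact h24 (a2.symm.trans a4)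
    have n34 : u₃ ≠ u₄ := by rintro rfl; exact h34 (a3.symm.trans a4)
    intro i j hij
    fin_cases i <;> fin_cases j <;> simp_all
  let f : Fin 4 ⊕ Fin t → V := Sum.elim ![u₁, u₂, u₃, u₄] (fun j => g (k j))
  have finj : Function.Injective f := by
    rintro (i | i) (j | j) hij
    · exact congrArg Sum.inl (uinj hij)
    · exact absurd hij (hadj i j).ne
    · exact absurd hij.symm (hadj j i).ne
    · exact congrArg Sum.inr (kinj (ginj hij))
  refine ⟨⟨⟨f, ?_⟩, finj⟩⟩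
  rintro (i | i) (j | j) hij
  · simp [completeBipartiteGraph] at hij
  · exact hadj i j
  · exact (hadj j i).symm
  · simp [completeBipartiteGraph] at hij

/-- the bound -/
theorem edge_bound (t : ℕ) (c : ℝ) (hc : 0 < c) (hc1 : c ≤ 1) (he : Equidist h)
    (hP : Set.InjOn P S) (hQ : Set.InjOn Q T)
    (hG : ∀ u v, G.Adj u v → IncPair h S T P Q (u, v) ∨ IncPair h S T P Q (v, u))
    (hcI : c * (Nat.card {e : V × V // IncPair h S T P Q e} : ℝ)
      ≤ Nat.card G.edgeSet + Fintype.card V)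
    (hf : (completeBipartiteGraph (Fin 4) (Fin t)).Free G) :
    (Nat.card G.edgeSet : ℝ) ≤ (8 + 8 * (t + 1) * (3 / c)) * Fintype.card V *
      ((Fintype.card V : ℝ) ^ (2 / 3 : ℝ) + Real.sqrt (Fintype.card X)
        + Real.sqrt (Fintype.card Y)) := by
  classical
  have hE := edges_le h S T P Q G hP hQ hG
  by_cases hV : Fintype.card V = 0
  · -- no vertices
    have hem : IsEmpty V := Fintype.card_eq_zero_iff.mp hV
    have h0 : eR (Rel h S T P Q G) = 0 := by
      rw [eR_eq h S T P Q G hP hQ, Nat.card_of_isEmpty, Nat.cast_zero]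
    rw [h0] at hE
    refine hE.trans ?_
    positivity
  have hV1 : (1 : ℝ) ≤ Fintype.card V := by
    exact_mod_cast Nat.one_le_iff_ne_zero.mpr hV
  set n : ℝ := (Fintype.card V : ℝ) with hn
  set u : ℝ := n ^ (1 / 3 : ℝ) with hu
  have hn0 : 0 ≤ n := by linarith
  have hu1 : 1 ≤ u := Real.one_le_rpow hV1 (by norm_num)
  have hu3 : u ^ 3 = n := by
    rw [hu, ← Real.rpow_natCast, ← Real.rpow_mul hn0]; norm_num
  have hu2 : u ^ 2 = n ^ (2 / 3 : ℝ) := by
    rw [hu, ← Real.rpow_natCast, ← Real.rpow_mul hn0]; norm_num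
  have hm : (0 : ℝ) < Fintype.card Z := by exact_mod_cast Fintype.card_pos
  have hspec := Rel_spec h S T P Q G
  have hmain := main_ineq h (Aset S P) (fun q => ∃ v ∈ T, Q v = q) (Rel h S T P Q G) he hspec t
    (K4_of_free h S T P Q G hP hQ t hf)
  have hmix := mixing h (Aset S P) (fun q => ∃ v ∈ T, Q v = q) he
  have hII := II_eq h S T P Q hP hQ
  have heI : eR (Rel h S T P Q G) ≤ II h (Aset S P) (fun q => ∃ v ∈ T, Q v = q) := by
    rw [eR_eq h S T P Q G hP hQ, hII]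
    exact_mod_cast Nat.card_le_card_of_injective
      (fun e : {e : V × V // IncPair h S T P Q e ∧ G.Adj e.1 e.2} =>
        (⟨e.1, e.2.1⟩ : {e : V × V // IncPair h S T P Q e}))
      (fun a b hab => Subtype.ext (Subtype.mk.inj hab))
  have hszB : sz (fun q : Y × Z => ∃ v ∈ T, Q v = q) ≤ u ^ 3 := by
    rw [hu3]; exact sz_le T Q hQ
  have hszA : sz (Aset S P) ≤ u ^ 3 := by
    rw [hu3]; exact sz_le S P hP
  have hsX : Real.sqrt (Fintype.card X) ^ 2 = Fintype.card X := Real.sq_sqrt (Nat.cast_nonneg _)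
  have hsY : Real.sqrt (Fintype.card Y) ^ 2 = Fintype.card Y := Real.sq_sqrt (Nat.cast_nonneg _)
  have hfin := real_core t c u (Real.sqrt (Fintype.card X)) (Real.sqrt (Fintype.card Y))
    (sz (Aset S P)) (sz (fun q : Y × Z => ∃ v ∈ T, Q v = q)) (Fintype.card Z)
    (eR (Rel h S T P Q G)) (II h (Aset S P) (fun q => ∃ v ∈ T, Q v = q)) hc hc1 hu1
    (Real.sqrt_nonneg _) (Real.sqrt_nonneg _) (sz_nonneg _) hszA (sz_nonneg _) hszB hm
    (eR_nonneg _) heI (by rw [hsY]; exact hmix)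
    (by rw [hII, hu3]; linarith)
    (by rw [hsX, hsY]; exact hmain)
  rw [hu3, hu2] at hfin
  exact hE.trans hfin

end Pool.Agent.K44
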